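import Mathlib
import Pool.Agent.Y50.FE.Var

/-!
# Varieties of exponent 5, 10, 15, 20 whose `d`-generated members are finite, `d ≥ 3`

The new case is exponent `5`: every group of exponent `5` with finite 3-generator subgroups is
locally finite (`Pool.Agent.Y50.FE.main5_u`, see the outline in
`Pool/Agent/Results/MP_544bd1_al/ThreeGeneratorsFive.lean`).
-/

set_option autoImplicit false

namespace Pool.Agent.Results.MP_01f347_al.ThreeGeneratedFive

/-- Let `d ≥ 3`, `n ≥ 1`, and let `V` be a variety (given by the laws `L`) of groups satisfying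
`x ^ n = 1` in which every `d`-generated group is finite.  If `n` is one of `5`, `10`, `15`, `20`,
then `V` is locally finite.  More generally, `V` is locally finite if `n` has at most two prime
divisors or every `d`-generated group in `V` is soluble, and if for every prime power `p ^ k > 5`
dividing `n` the groups in `V` of exponent dividing `p ^ k` are locally finite. -/
theorem result (d : ℕ) (hd : 3 ≤ d) (L : Set (FreeGroup ℕ)) (n : ℕ) (hn : 1 ≤ n)
    (hexp : ∀ (G : Type) [Group G], (∀ f : FreeGroup ℕ →* G, ∀ w ∈ L, f w = 1) →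
      ∀ x : G, x ^ n = 1)
    (hfin : ∀ (G : Type) [Group G], (∀ f : FreeGroup ℕ →* G, ∀ w ∈ L, f w = 1) →
      (∃ s : Fin d → G, Subgroup.closure (Set.range s) = ⊤) → Finite G) :
    ((n = 5 ∨ n = 10 ∨ n = 15 ∨ n = 20) →
      ∀ (G : Type) [Group G], (∀ f : FreeGroup ℕ →* G, ∀ w ∈ L, f w = 1) →
        Group.FG G → Finite G) ∧
    ((n.primeFactors.card ≤ 2 ∨
        ∀ (G : Type) [Group G], (∀ f : FreeGroup ℕ →* G, ∀ w ∈ L, f w = 1) →
          (∃ s : Fin d → G, Subgroup.closure (Set.range s) = ⊤) → Group.IsSolvable G) →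
      (∀ p k : ℕ, p.Prime → p ^ k ∣ n → 5 < p ^ k →
        ∀ (G : Type) [Group G], (∀ f : FreeGroup ℕ →* G, ∀ w ∈ L, f w = 1) →
          (∀ x : G, x ^ p ^ k = 1) → Group.FG G → Finite G) →
      ∀ (G : Type) [Group G], (∀ f : FreeGroup ℕ →* G, ∀ w ∈ L, f w = 1) →
        Group.FG G → Finite G) :=
  ⟨fun h => Pool.Agent.Y50.FE.var_small d hd L n h hexp hfin,
    fun hsol hloc => Pool.Agent.Y50.FE.var_three d hd L n hn hexp hfin hsol hloc⟩

end Pool.Agent.Results.MP_01f347_al.ThreeGeneratedFive
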